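import Mathlib

section

/-!
# Coefficient extraction maps on the polynomial ring `𝔽_p[z_0, z_1, …]`
-/

namespace Pool.Agent.Lib.MP_afeaf0_al

open MvPolynomial

/-- The polynomial ring in countably many variables over `𝔽_p`. -/
abbrev T (p : ℕ) : Type := MvPolynomial ℕ (ZMod p)

variable {p : ℕ} [hp : Fact p.Prime]

theorem shift_injective {q : ℕ} (hq : 0 < q) (α : ℕ →₀ ℕ) :
    Function.Injective (fun γ : ℕ →₀ ℕ => α + q • γ) := by
  intro a b h
  have h1 : q • a = q • b := add_left_cancel h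
  ext i
  have h2 := DFunLike.congr_fun h1 i
  simp only [Finsupp.coe_smul, Pi.smul_apply, smul_eq_mul] at h2
  exact Nat.eq_of_mul_eq_mul_left hq h2

/-- `Phi hq α f` is the polynomial whose coefficient at `γ` is that of `f` at `α + q γ`. -/
noncomputable def Phi {q : ℕ} (hq : 0 < q) (α : ℕ →₀ ℕ) : T p →+ T p where
  toFun f := AddMonoidAlgebra.ofCoeff
    (Finsupp.comapDomain (fun γ : ℕ →₀ ℕ => α + q • γ) (AddMonoidAlgebra.coeff f)
      (shift_injective hq α).injOn)
  map_zero' := by
    ext γ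
    rfl
  map_add' f g := by
    ext γ
    rfl

theorem coeff_Phi {q : ℕ} (hq : 0 < q) (α γ : ℕ →₀ ℕ) (f : T p) :
    coeff γ (Phi hq α f) = coeff (α + q • γ) f := rfl

theorem Phi_C_mul {e : ℕ} {q : ℕ} (hq : 0 < q) (he : q = p ^ e) (α : ℕ →₀ ℕ) (a : ZMod p)
    (g : T p) : Phi hq α ((C a) ^ q * g) = C a * Phi hq α g := by
  ext γ
  rw [coeff_Phi, ← C_pow, coeff_C_mul, coeff_C_mul, coeff_Phi]
  congr 1
  rw [he]
  exact ZMod.pow_card_pow a

theorem Phi_X_mul {q : ℕ} (hq : 0 < q) {α : ℕ →₀ ℕ} (hα : ∀ i, α i < q) (i : ℕ) (g : T p) :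
    Phi hq α ((X i) ^ q * g) = X i * Phi hq α g := by
  ext γ
  rw [coeff_Phi, X_pow_eq_monomial, X, coeff_monomial_mul', coeff_monomial_mul', coeff_Phi]
  have key : (Finsupp.single i q ≤ α + q • γ) ↔ (Finsupp.single i 1 ≤ γ) := by
    rw [Finsupp.single_le_iff, Finsupp.single_le_iff]
    simp only [Finsupp.coe_add, Finsupp.coe_smul, Pi.add_apply, Pi.smul_apply, smul_eq_mul]
    constructor
    · intro h
      by_contra h1
      have h2 : γ i = 0 := by omega
      rw [h2, mul_zero, add_zero] at h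
      exact absurd (hα i) (not_lt.mpr h)
    · intro h
      calc q = q * 1 := (mul_one q).symm
        _ ≤ q * γ i := Nat.mul_le_mul_left q h
        _ ≤ α i + q * γ i := Nat.le_add_left _ _
  by_cases h : Finsupp.single i 1 ≤ γ
  · rw [if_pos h, if_pos (key.mpr h)]
    congr 2
    have hγ : γ = Finsupp.single i 1 + (γ - Finsupp.single i 1) := by
      rw [add_tsub_cancel_of_le h]
    rw [hγ]
    ext j
    simp only [Finsupp.coe_add, Finsupp.coe_smul, Finsupp.coe_tsub, Pi.add_apply, Pi.smul_apply,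
      Pi.sub_apply, smul_eq_mul, add_tsub_cancel_left]
    by_cases hj : j = i
    · subst hj
      simp only [Finsupp.single_eq_same]
      rw [Nat.mul_add, mul_one]
      omega
    · simp [Finsupp.single_eq_of_ne hj]
  · rw [if_neg h, if_neg (fun h' => h (key.mp h'))]

/-- `Phi` is `q`-inverse linear for `q = p ^ e`. -/
theorem Phi_pow_mul {e : ℕ} {q : ℕ} (hq : 0 < q) (he : q = p ^ e) {α : ℕ →₀ ℕ}
    (hα : ∀ i, α i < q) (f g : T p) :
    Phi hq α (f ^ q * g) = f * Phi hq α g := by
  induction f using MvPolynomial.induction_on generalizing g with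
  | C a => exact Phi_C_mul hq he α a g
  | add f₁ f₂ h₁ h₂ =>
    have : (f₁ + f₂) ^ q = f₁ ^ q + f₂ ^ q := by
      rw [he]; exact add_pow_char_pow f₁ f₂ p e
    rw [this, add_mul, map_add, h₁, h₂, add_mul]
  | mul_X f i h =>
    rw [mul_pow, mul_assoc, h, Phi_X_mul hq hα, mul_assoc]

/-- If all exponents of `c` are less than `q`, then `Phi` extracts a coefficient. -/
theorem Phi_small {q : ℕ} (hq : 0 < q) (α : ℕ →₀ ℕ) (c : T p)
    (hc : ∀ β ∈ c.support, ∀ i, β i < q) : Phi hq α c = C (coeff α c) := by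
  ext γ
  rw [coeff_Phi, coeff_C]
  by_cases h : 0 = γ
  · subst h; simp
  · rw [if_neg h]
    by_contra hne
    have hne' : coeff (α + q • γ) c ≠ 0 := hne
    have h1 := hc (α + q • γ) (MvPolynomial.mem_support_iff.mpr hne')
    apply h
    ext i
    have h2 := h1 i
    simp only [Finsupp.coe_add, Finsupp.coe_smul, Pi.add_apply, Pi.smul_apply, smul_eq_mul] at h2
    by_contra h3
    have h4 : 1 ≤ γ i := Nat.one_le_iff_ne_zero.mpr (fun h => h3 (by simpa using h.symm))
    have : q ≤ q * γ i := Nat.le_mul_of_pos_right q h4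
    omega

/-! ### Weighted degrees -/

/-- The weight of an exponent vector: the variable `z_i` has weight `i + 1`. -/
def wt (β : ℕ →₀ ℕ) : ℕ := β.sum fun i n => n * (i + 1)

theorem wt_add (β γ : ℕ →₀ ℕ) : wt (β + γ) = wt β + wt γ := by
  unfold wt
  apply Finsupp.sum_add_index'
  · intro i; simp
  · intro i m n; ring

theorem wt_smul (q : ℕ) (β : ℕ →₀ ℕ) : wt (q • β) = q * wt β := by
  induction q with
  | zero => simp [wt]
  | succ q ih => rw [add_smul, one_smul, wt_add, ih]; ring

theorem le_wt (β : ℕ →₀ ℕ) (i : ℕ) : β i ≤ wt β := by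
  by_cases h : i ∈ β.support
  · unfold wt Finsupp.sum
    calc β i ≤ β i * (i + 1) := Nat.le_mul_of_pos_right _ (Nat.succ_pos i)
      _ ≤ _ := Finset.single_le_sum (f := fun i => β i * (i + 1)) (fun _ _ => Nat.zero_le _) h
  · rw [Finsupp.notMem_support_iff.mp h]; exact Nat.zero_le _

theorem index_lt_wt (β : ℕ →₀ ℕ) (i : ℕ) (h : β i ≠ 0) : i < wt β := by
  have hi : i ∈ β.support := Finsupp.mem_support_iff.mpr h
  unfold wt Finsupp.sum
  calc i < 1 * (i + 1) := by omega
    _ ≤ β i * (i + 1) := Nat.mul_le_mul_right _ (Nat.one_le_iff_ne_zero.mpr h)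
    _ ≤ _ := Finset.single_le_sum (f := fun i => β i * (i + 1)) (fun _ _ => Nat.zero_le _) hi

/-- The polynomials of weighted degree at most `d`. -/
def Bd (d : ℕ) (f : T p) : Prop := ∀ β, coeff β f ≠ 0 → wt β ≤ d

theorem Bd.mono {d e : ℕ} (h : d ≤ e) {f : T p} (hf : Bd d f) : Bd e f :=
  fun β hβ => (hf β hβ).trans h

theorem Bd.zero {d : ℕ} : Bd d (0 : T p) := by
  intro β hβ
  simp at hβ

theorem Bd.add {d : ℕ} {f g : T p} (hf : Bd d f) (hg : Bd d g) : Bd d (f + g) := by
  intro β hβ
  rw [coeff_add] at hβ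
  by_cases h : coeff β f = 0
  · rw [h, zero_add] at hβ; exact hg β hβ
  · exact hf β h

theorem Bd.sum {ι : Type*} {d : ℕ} (s : Finset ι) (f : ι → T p) (h : ∀ i ∈ s, Bd d (f i)) :
    Bd d (∑ i ∈ s, f i) := by
  classical
  induction s using Finset.induction_on with
  | empty => simpa using Bd.zero
  | insert a s ha ih =>
    rw [Finset.sum_insert ha]
    exact (h a (Finset.mem_insert_self a s)).add
      (ih fun i hi => h i (Finset.mem_insert_of_mem hi))

theorem Bd.mul {d e : ℕ} {f g : T p} (hf : Bd d f) (hg : Bd e g) : Bd (d + e) (f * g) := by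
  classical
  intro β hβ
  rw [coeff_mul] at hβ
  obtain ⟨⟨x, y⟩, hxy, h⟩ := Finset.exists_ne_zero_of_sum_ne_zero hβ
  rw [Finset.HasAntidiagonal.mem_antidiagonal] at hxy
  rw [← hxy, wt_add]
  exact Nat.add_le_add (hf x (left_ne_zero_of_mul h)) (hg y (right_ne_zero_of_mul h))

theorem exists_Bd (f : T p) : ∃ d, Bd d f := by
  refine ⟨f.support.sup wt, fun β hβ => ?_⟩
  exact Finset.le_sup (f := wt) (MvPolynomial.mem_support_iff.mpr hβ)

theorem Bd.Phi {d q : ℕ} (hq : 0 < q) {f : T p} (hf : Bd d f) :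
    Bd (d / q) (Phi hq 0 f) := by
  intro β hβ
  rw [coeff_Phi, zero_add] at hβ
  have := hf _ hβ
  rw [wt_smul] at this
  rw [Nat.le_div_iff_mul_le hq]
  linarith [Nat.mul_comm q (wt β)]

theorem finite_wt (d : ℕ) : {β : ℕ →₀ ℕ | wt β ≤ d}.Finite := by
  have hinj : Function.Injective (fun β : ℕ →₀ ℕ => (β : ℕ → ℕ)) := DFunLike.coe_injective
  let F : {β : ℕ →₀ ℕ | wt β ≤ d} → (Fin (d + 1) → Fin (d + 1)) :=
    fun β i => ⟨β.1 i.1, Nat.lt_succ_of_le ((le_wt β.1 i.1).trans β.2)⟩
  have hF : Function.Injective F := by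
    intro β γ h
    apply Subtype.ext
    ext i
    by_cases hi : i < d + 1
    · have := congrFun h ⟨i, hi⟩
      simpa [F] using this
    · have h1 : β.1 i = 0 := by
        by_contra h2
        have := index_lt_wt β.1 i h2
        have h3 : wt β.1 ≤ d := β.2
        omega
      have h2 : γ.1 i = 0 := by
        by_contra h2
        have := index_lt_wt γ.1 i h2
        have h3 : wt γ.1 ≤ d := γ.2
        omega
      rw [h1, h2]
  exact Set.finite_coe_iff.mp (Finite.of_injective F hF)

theorem finite_Bd (d : ℕ) : {f : T p | Bd d f}.Finite := by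
  have hfin := finite_wt d
  have : Finite {β : ℕ →₀ ℕ | wt β ≤ d} := hfin.to_subtype
  have : NeZero p := ⟨hp.out.ne_zero⟩
  let F : {f : T p | Bd d f} → ({β : ℕ →₀ ℕ | wt β ≤ d} → ZMod p) := fun f β => coeff β.1 f.1
  have hF : Function.Injective F := by
    intro f g h
    apply Subtype.ext
    ext β
    by_cases hβ : wt β ≤ d
    · exact congrFun h ⟨β, hβ⟩
    · have h1 : coeff β f.1 = 0 := by
        by_contra h2; exact hβ (f.2 β h2)
      have h2 : coeff β g.1 = 0 := by
        by_contra h2; exact hβ (g.2 β h2)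
      rw [h1, h2]
  exact Set.finite_coe_iff.mp (Finite.of_injective F hF)

end Pool.Agent.Lib.MP_afeaf0_al
end

section

section

/-!
# Chains of primes in `R[X]` for a glued ring `R`
-/

namespace Pool.Agent.Lib.MP_afeaf0_al

open Polynomial

/-- A nonzero prime of `R[X]` contained in a prime `Q₀` with `Q₀ ∩ R = 0` equals `Q₀`. -/
theorem eq_of_le_of_contract_zero {R : Type*} [CommRing R] [IsDomain R] (Q Q₀ : Ideal R[X])
    [hQ : Q.IsPrime] [hQ₀ : Q₀.IsPrime] (hle : Q ≤ Q₀) (hne : Q ≠ ⊥)
    (h0 : ∀ r : R, C r ∈ Q₀ → r = 0) : Q = Q₀ := by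
  let K := FractionRing R
  let M : Submonoid R[X] := (nonZeroDivisors R).map (C : R →+* R[X])
  let _ : Algebra R[X] K[X] := Polynomial.algebra R K
  have : IsLocalization M K[X] := Polynomial.isLocalization (nonZeroDivisors R) K
  have hd0 : Disjoint (M : Set R[X]) (Q₀ : Set R[X]) := by
    rw [Set.disjoint_left]
    rintro _ ⟨r, hr, rfl⟩ hmem
    exact nonZeroDivisors.ne_zero hr (h0 r hmem)
  have hd : Disjoint (M : Set R[X]) (Q : Set R[X]) := hd0.mono_right hle
  have p1 : (Ideal.map (algebraMap R[X] K[X]) Q).IsPrime :=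
    IsLocalization.isPrime_of_isPrime_disjoint M K[X] Q hQ hd
  have p0 : (Ideal.map (algebraMap R[X] K[X]) Q₀).IsPrime :=
    IsLocalization.isPrime_of_isPrime_disjoint M K[X] Q₀ hQ₀ hd0
  have c1 : (Ideal.map (algebraMap R[X] K[X]) Q).comap (algebraMap R[X] K[X]) = Q :=
    IsLocalization.under_map_of_isPrime_disjoint M K[X] hQ hd
  have c0 : (Ideal.map (algebraMap R[X] K[X]) Q₀).comap (algebraMap R[X] K[X]) = Q₀ :=
    IsLocalization.under_map_of_isPrime_disjoint M K[X] hQ₀ hd0
  have hinj : Function.Injective (algebraMap R[X] K[X]) :=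
    Polynomial.map_injective _ (IsFractionRing.injective R K)
  have n1 : Ideal.map (algebraMap R[X] K[X]) Q ≠ ⊥ := by
    intro h
    apply hne
    rw [Ideal.map_eq_bot_iff_of_injective hinj] at h
    exact h
  have m1 : (Ideal.map (algebraMap R[X] K[X]) Q).IsMaximal := p1.isMaximal n1
  have e : Ideal.map (algebraMap R[X] K[X]) Q = Ideal.map (algebraMap R[X] K[X]) Q₀ :=
    m1.eq_of_le p0.ne_top (Ideal.map_mono hle)
  rw [← c1, ← c0, e]

/-- Primes between the kernel of a surjection `φ : A → B` and the preimage of `m`. -/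
theorem between_of_surjective {A B : Type*} [CommRing A] [CommRing B] (φ : A →+* B)
    (hφ : Function.Surjective φ) (m : Ideal B)
    (hm : ∀ q : Ideal B, q.IsPrime → q ≤ m → q = ⊥ ∨ q = m)
    (Q : Ideal A) [hQ : Q.IsPrime] (h1 : RingHom.ker φ ≤ Q) (h2 : Q ≤ m.comap φ) :
    Q = RingHom.ker φ ∨ Q = m.comap φ := by
  have hp : (Ideal.map φ Q).IsPrime := Ideal.map_isPrime_of_surjective hφ h1
  have hc : (Ideal.map φ Q).comap φ = Q := by
    rw [Ideal.comap_map_of_surjective φ hφ]
    exact sup_eq_left.mpr h1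
  have hle : Ideal.map φ Q ≤ m := Ideal.map_le_iff_le_comap.mpr h2
  rcases hm _ hp hle with h | h
  · left; rw [← hc, h]; rfl
  · right; rw [← hc, h]

section Glue

variable {B κ : Type*} [CommRing B] [IsDomain B] [Field κ] (h₁ h₂ h₃ : B →+* κ)

/-- The glued ring `{b : h₁ b = h₂ b}`. -/
abbrev glue : Subring B := RingHom.eqLocus h₁ h₂

/-- The kernel of `R[X] → B`, `X ↦ e`. -/
noncomputable def phi (e : B) : (glue h₁ h₂)[X] →+* B :=
  eval₂RingHom (glue h₁ h₂).subtype e

variable {h₁ h₂ h₃}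

omit [IsDomain B] in
theorem phi_C (e : B) (r : glue h₁ h₂) : phi h₁ h₂ e (C r) = r := by
  simp [phi]

omit [IsDomain B] in
theorem phi_X (e : B) : phi h₁ h₂ e X = e := by
  simp [phi]

omit [IsDomain B] in
theorem phi_surjective (e : B) (he1 : h₁ e = 1) (he2 : h₂ e = 0)
    (hsurj : ∀ c : κ, ∃ b : B, h₁ b = c ∧ h₂ b = c) : Function.Surjective (phi h₁ h₂ e) := by
  intro b
  obtain ⟨a, ha1, ha2⟩ := hsurj (h₂ b)
  obtain ⟨c, hc1, hc2⟩ := hsurj (h₁ b - h₂ b)
  have ha : a ∈ glue h₁ h₂ := by rw [RingHom.mem_eqLocus, ha1, ha2]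
  have hc : c ∈ glue h₁ h₂ := by rw [RingHom.mem_eqLocus, hc1, hc2]
  have hd : b - a - c * e ∈ glue h₁ h₂ := by
    rw [RingHom.mem_eqLocus]
    simp [ha1, ha2, hc1, hc2, he1, he2]
  refine ⟨C ⟨b - a - c * e, hd⟩ + C ⟨a, ha⟩ + C ⟨c, hc⟩ * X, ?_⟩
  rw [map_add, map_add, map_mul, phi_C, phi_C, phi_C, phi_X]
  ring

/-- The chains of primes showing that the glued ring is not universally catenary. -/
theorem exists_chains (e : B) (he1 : h₁ e = 1) (he2 : h₂ e = 0)
    (hsurj : ∀ c : κ, ∃ b : B, h₁ b = c ∧ h₂ b = c)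
    (hbetween : ∀ q : Ideal B, q.IsPrime → q ≤ RingHom.ker h₁ → q = ⊥ ∨ q = RingHom.ker h₁)
    (x : B) (hx0 : x ≠ 0) (hx1 : h₁ x = 0) (hx2 : h₂ x = 0) (hx3 : h₃ x = 0)
    (y : B) (hy1 : h₁ y = 0) (hy2 : h₂ y = 0) (hy3 : h₃ y ≠ 0)
    (h32 : ∀ b : B, h₃ b = 0 → h₂ b = 0) :
    ∃ P₀ Q₀ M Qa Qb : PrimeSpectrum (glue h₁ h₂)[X],
      P₀ ⋖ Q₀ ∧ Q₀ ⋖ M ∧ P₀ < Qa ∧ Qa < Qb ∧ Qb < M := by
  classical
  let R := glue h₁ h₂
  let φ : R[X] →+* B := phi h₁ h₂ e
  let g₁ : R[X] →+* κ[X] := mapRingHom (h₁.comp R.subtype)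
  let g₃ : R[X] →+* κ[X] := mapRingHom (h₃.comp R.subtype)
  have hxR : x ∈ R := by rw [RingHom.mem_eqLocus, hx1, hx2]
  have hyR : y ∈ R := by rw [RingHom.mem_eqLocus, hy1, hy2]
  have hφs : Function.Surjective φ := phi_surjective e he1 he2 hsurj
  let P₀ : PrimeSpectrum R[X] := ⟨⊥, Ideal.isPrime_bot⟩
  let Q₀ : PrimeSpectrum R[X] := ⟨RingHom.ker φ, RingHom.ker_isPrime φ⟩
  have hk : (RingHom.ker h₁).IsPrime := RingHom.ker_isPrime h₁
  let M : PrimeSpectrum R[X] := ⟨(RingHom.ker h₁).comap φ, Ideal.comap_isPrime φ _⟩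
  let Qa : PrimeSpectrum R[X] := ⟨RingHom.ker g₃, RingHom.ker_isPrime g₃⟩
  let Qb : PrimeSpectrum R[X] := ⟨RingHom.ker g₁, RingHom.ker_isPrime g₁⟩
  have hcoef1 : ∀ f : R[X], f ∈ RingHom.ker g₁ ↔ ∀ n, h₁ (f.coeff n : B) = 0 := by
    intro f
    rw [RingHom.mem_ker, Polynomial.ext_iff]
    simp [g₁]
  have hcoef3 : ∀ f : R[X], f ∈ RingHom.ker g₃ ↔ ∀ n, h₃ (f.coeff n : B) = 0 := by
    intro f
    rw [RingHom.mem_ker, Polynomial.ext_iff]
    simp [g₃]
  have hQ₀0 : ∀ r : R, C r ∈ RingHom.ker φ → r = 0 := by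
    intro r hr
    rw [RingHom.mem_ker] at hr
    have := phi_C (h₁ := h₁) (h₂ := h₂) e r
    rw [hr] at this
    exact Subtype.ext this.symm
  refine ⟨P₀, Q₀, M, Qa, Qb, ?_, ?_, ?_, ?_, ?_⟩
  · -- `0 ⋖ Q₀`
    constructor
    · refine lt_of_le_of_ne bot_le ?_
      intro h
      -- the element `x X - x e` lies in `Q₀`
      have hxe : x * e ∈ R := by
        rw [RingHom.mem_eqLocus]
        simp [hx1, hx2]
      have hmem : C ⟨x, hxR⟩ * X - C ⟨x * e, hxe⟩ ∈ Q₀.asIdeal := by
        change φ _ = 0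
        rw [map_sub, map_mul, phi_C, phi_C, phi_X]
        simp
      rw [← h] at hmem
      have h0 : C (⟨x, hxR⟩ : R) * X - C ⟨x * e, hxe⟩ = 0 := hmem
      have h1 := congrArg (fun f => f.coeff 1) h0
      simp only [coeff_sub, coeff_C_mul, coeff_X_one, mul_one, coeff_zero] at h1
      rw [coeff_C_of_ne_zero one_ne_zero, sub_zero] at h1
      exact hx0 (congrArg Subtype.val h1)
    · intro Q hQ1 hQ2
      have hQne : Q.asIdeal ≠ ⊥ := by
        intro h
        apply hQ1.ne
        apply PrimeSpectrum.ext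
        exact h.symm
      have := eq_of_le_of_contract_zero Q.asIdeal (RingHom.ker φ) (hQ := Q.isPrime)
        (hQ₀ := RingHom.ker_isPrime φ) hQ2.le hQne hQ₀0
      exact hQ2.ne (PrimeSpectrum.ext this)
  · -- `Q₀ ⋖ M`
    constructor
    · refine lt_of_le_of_ne ?_ ?_
      · intro f hf
        change h₁ (φ f) = 0
        have : φ f = 0 := hf
        rw [this, map_zero]
      · intro h
        have hmem : C (⟨x, hxR⟩ : R) ∈ M.asIdeal := by
          change h₁ (φ _) = 0
          rw [phi_C]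
          exact hx1
        rw [← h] at hmem
        have h1 := hQ₀0 _ hmem
        exact hx0 (congrArg Subtype.val h1)
    · intro Q hQ1 hQ2
      rcases between_of_surjective φ hφs (RingHom.ker h₁) hbetween Q.asIdeal (hQ := Q.isPrime)
        hQ1.le hQ2.le with h | h
      · exact hQ1.ne (PrimeSpectrum.ext h.symm)
      · exact hQ2.ne (PrimeSpectrum.ext h)
  · -- `0 < Qa`
    refine lt_of_le_of_ne bot_le ?_
    intro h
    have hmem : C (⟨x, hxR⟩ : R) ∈ Qa.asIdeal := by
      change _ ∈ RingHom.ker g₃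
      rw [hcoef3]
      intro n
      rw [coeff_C]
      split_ifs
      · exact hx3
      · simp
    rw [← h] at hmem
    have h0 : C (⟨x, hxR⟩ : R) = 0 := hmem
    rw [C_eq_zero] at h0
    exact hx0 (congrArg Subtype.val h0)
  · -- `Qa < Qb`
    refine lt_of_le_of_ne ?_ ?_
    · intro f hf
      change f ∈ RingHom.ker g₁
      rw [hcoef1]
      have hf' := (hcoef3 f).mp hf
      intro n
      have h1 := h32 _ (hf' n)
      have h2 : h₁ (f.coeff n : B) = h₂ (f.coeff n : B) := (f.coeff n).2
      rw [h2, h1]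
    · intro h
      have hmem : C (⟨y, hyR⟩ : R) ∈ Qb.asIdeal := by
        change _ ∈ RingHom.ker g₁
        rw [hcoef1]
        intro n
        rw [coeff_C]
        split_ifs
        · exact hy1
        · simp
      rw [← h] at hmem
      have h1 := (hcoef3 _).mp hmem 0
      rw [coeff_C_zero] at h1
      exact hy3 h1
  · -- `Qb < M`
    refine lt_of_le_of_ne ?_ ?_
    · intro f hf
      change h₁ (φ f) = 0
      have hf' := (hcoef1 f).mp hf
      change h₁ (eval₂ R.subtype e f) = 0
      rw [hom_eval₂, eval₂_eq_sum]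
      unfold Polynomial.sum
      apply Finset.sum_eq_zero
      intro n _
      have := hf' n
      simp only [RingHom.comp_apply, Subring.subtype_apply, this, zero_mul]
    · intro h
      have hmem : (X - 1 : R[X]) ∈ M.asIdeal := by
        change h₁ (φ _) = 0
        rw [map_sub, phi_X, map_one, map_sub, he1, map_one, sub_self]
      rw [← h] at hmem
      have h1 := (hcoef1 _).mp hmem 1
      simp [coeff_one] at h1

end Glue

end Pool.Agent.Lib.MP_afeaf0_al
end

section

/-!
# Changing the algebraic closure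
-/

namespace Pool.Agent.Lib.MP_afeaf0_al

section

variable {B F : Type*} [CommRing B] [IsDomain B] [Field F] [Algebra B F] [IsFractionRing B F]

omit [IsDomain B] in
theorem algebraMap_subring_injective (R : Subring B) : Function.Injective (algebraMap R F) := by
  intro a b h
  apply Subtype.ext
  exact IsFractionRing.injective B F h

/-- If `R ⊆ B` contains a nonzero multiple of `B`, then `R` and `B` have the same fraction field. -/
theorem isFractionRing_subring (R : Subring B) (j : B) (hj : j ≠ 0) (hjR : ∀ x : B, j * x ∈ R) :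
    IsFractionRing R F := by
  have : FaithfulSMul R F :=
    (faithfulSMul_iff_algebraMap_injective _ _).mpr (algebraMap_subring_injective R)
  apply IsFractionRing.of_field
  intro z
  obtain ⟨a, d, hd, rfl⟩ := IsFractionRing.div_surjective B z
  refine ⟨⟨j * a, hjR _⟩, ⟨j * d, hjR _⟩, ?_⟩
  have e : ∀ t : B, algebraMap R F ⟨j * t, hjR t⟩ = algebraMap B F j * algebraMap B F t := by
    intro t
    change algebraMap B F (j * t) = _
    rw [map_mul]
  rw [e, e]
  have hj' : algebraMap B F j ≠ 0 := by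
    intro h
    exact hj (IsFractionRing.injective B F (h.trans (map_zero _).symm))
  rw [mul_div_mul_left _ _ hj']

end

/-- Solidity of the absolute integral closure does not depend on the chosen algebraic closure. -/
theorem exists_nonzero_map_of_closure {R F : Type*} [CommRing R] [IsDomain R] [Field F]
    [Algebra R F] [IsFractionRing R F]
    (h : ∃ Ψ : integralClosure R (AlgebraicClosure F) →ₗ[R] R, Ψ ≠ 0) :
    ∃ Ψ : integralClosure R (AlgebraicClosure (FractionRing R)) →ₗ[R] R, Ψ ≠ 0 := by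
  obtain ⟨Ψ, hΨ⟩ := h
  have a2 : Algebra.IsAlgebraic R (AlgebraicClosure F) :=
    (IsFractionRing.comap_isAlgebraic_iff (A := R) (K := F) (C := AlgebraicClosure F)).mpr
      inferInstance
  have a3 : Algebra.IsAlgebraic R (AlgebraicClosure (FractionRing R)) :=
    (IsFractionRing.comap_isAlgebraic_iff (A := R) (K := FractionRing R)
      (C := AlgebraicClosure (FractionRing R))).mpr inferInstance
  have t2 : FaithfulSMul R (AlgebraicClosure F) := by
    rw [faithfulSMul_iff_algebraMap_injective,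
      IsScalarTower.algebraMap_eq R F (AlgebraicClosure F)]
    exact (FaithfulSMul.algebraMap_injective F (AlgebraicClosure F)).comp
      (IsFractionRing.injective R F)
  have t3 : FaithfulSMul R (AlgebraicClosure (FractionRing R)) := by
    rw [faithfulSMul_iff_algebraMap_injective,
      IsScalarTower.algebraMap_eq R (FractionRing R) (AlgebraicClosure (FractionRing R))]
    exact (FaithfulSMul.algebraMap_injective (FractionRing R)
      (AlgebraicClosure (FractionRing R))).comp (IsFractionRing.injective R (FractionRing R))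
  have i1 : IsAlgClosure R (AlgebraicClosure F) := ⟨inferInstance, a2⟩
  have i2 : IsAlgClosure R (AlgebraicClosure (FractionRing R)) := ⟨inferInstance, a3⟩
  let e : AlgebraicClosure (FractionRing R) ≃ₐ[R] AlgebraicClosure F :=
    IsAlgClosure.equiv R _ _
  refine ⟨Ψ ∘ₗ e.mapIntegralClosure.toLinearMap, ?_⟩
  intro h
  apply hΨ
  ext x
  have := LinearMap.congr_fun h (e.mapIntegralClosure.symm x)
  simpa using this

end Pool.Agent.Lib.MP_afeaf0_al
end

section

/-!
# Two Noetherianity criteria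
-/

namespace Pool.Agent.Lib.MP_afeaf0_al

/-- If every element of `B` is a unit times an element coming from the Noetherian ring `A`, then
`B` is Noetherian. -/
theorem isNoetherianRing_of_fractions {A B : Type*} [CommRing A] [CommRing B] [IsNoetherianRing A]
    (g : A →+* B) (h : ∀ b : B, ∃ (u : Bˣ) (a : A), b = u * g a) : IsNoetherianRing B := by
  rw [isNoetherianRing_iff_ideal_fg]
  intro I
  have hI : I = Ideal.map g (Ideal.comap g I) := by
    apply le_antisymm
    · intro b hb
      obtain ⟨u, a, rfl⟩ := h b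
      apply Ideal.mul_mem_left
      apply Ideal.mem_map_of_mem
      rw [Ideal.mem_comap]
      have := I.mul_mem_left ((u⁻¹ : Bˣ) : B) hb
      rwa [← mul_assoc, Units.inv_mul, one_mul] at this
    · exact Ideal.map_comap_le
  rw [hI]
  exact Ideal.FG.map (Ideal.fg_of_isNoetherianRing _) g

/-- Let `R` be a subring of a Noetherian ring `S` containing an ideal `J` of `S` such that `S/J`
is a Noetherian `R`-module.  Then `R` is Noetherian. -/
theorem isNoetherianRing_of_conductor {S : Type*} [CommRing S] [IsNoetherianRing S]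
    (R : Subring S) (J : Ideal S) (hJ : ∀ x ∈ J, x ∈ R)
    [hN : IsNoetherian R (S ⧸ J.restrictScalars R)] : IsNoetherianRing R := by
  classical
  rw [isNoetherianRing_iff_ideal_fg]
  intro I
  -- `I` as a submodule of `S`
  let ι : R →ₗ[R] S := Algebra.linearMap R S
  have hι : Function.Injective ι := Subtype.val_injective
  suffices h : (Submodule.map ι I).FG from Submodule.fg_of_fg_map_injective ι hι h
  -- finitely many elements of `I` generating `I S`
  have hfg : (Submodule.span S (ι '' (I : Set R))).FG := IsNoetherian.noetherian _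
  obtain ⟨t, htI, ht⟩ := (Submodule.fg_span_iff_fg_span_finset_subset _).mp hfg
  let I₀ : Submodule R S := Submodule.span R (t : Set S)
  have hI₀ : I₀.FG := ⟨t, rfl⟩
  have hI₀I : I₀ ≤ Submodule.map ι I := by
    rw [Submodule.span_le]
    intro x hx
    obtain ⟨y, hy, rfl⟩ := htI hx
    exact ⟨y, hy, rfl⟩
  apply Submodule.fg_of_fg_map_of_fg_inf_ker I₀.mkQ
  · -- the image in `S / I₀` is contained in the image of a Noetherian module
    have hker : ∀ x : t, J.restrictScalars R ≤
        LinearMap.ker (I₀.mkQ ∘ₗ (LinearMap.mulRight R (x : S))) := by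
      intro x y hy
      rw [LinearMap.mem_ker, LinearMap.comp_apply, Submodule.mkQ_apply,
        Submodule.Quotient.mk_eq_zero, LinearMap.mulRight_apply]
      have : y * (x : S) = (⟨y, hJ y hy⟩ : R) • (x : S) := rfl
      rw [this]
      exact Submodule.smul_mem _ _ (Submodule.subset_span x.2)
    let G : (t → S ⧸ J.restrictScalars R) →ₗ[R] S ⧸ I₀ :=
      ∑ x : t, (Submodule.liftQ (J.restrictScalars R)
        (I₀.mkQ ∘ₗ (LinearMap.mulRight R (x : S))) (hker x)) ∘ₗ (LinearMap.proj x)
    have hle : Submodule.map I₀.mkQ (Submodule.map ι I) ≤ LinearMap.range G := by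
      rintro _ ⟨y, hy, rfl⟩
      have hy' : y ∈ Submodule.span S (t : Set S) := by
        rw [← ht]
        obtain ⟨z, hz, rfl⟩ := hy
        exact Submodule.subset_span ⟨z, hz, rfl⟩
      obtain ⟨c, hc⟩ := (Submodule.mem_span_finset.mp hy')
      refine ⟨fun x => Submodule.Quotient.mk (c x), ?_⟩
      simp only [G, LinearMap.sum_apply, LinearMap.comp_apply,
        LinearMap.proj_apply]
      have e1 : ∀ x : t, (Submodule.liftQ (J.restrictScalars R)
          (I₀.mkQ ∘ₗ (LinearMap.mulRight R (x : S))) (hker x))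
          (Submodule.Quotient.mk (c x)) = I₀.mkQ (c x * x) := fun x => rfl
      simp only [e1]
      rw [← map_sum, ← hc.2]
      congr 1
      exact Finset.sum_coe_sort t (fun x => c x * x)
    have : Submodule.map I₀.mkQ (Submodule.map ι I) =
        Submodule.map G (Submodule.comap G (Submodule.map I₀.mkQ (Submodule.map ι I))) := by
      rw [Submodule.map_comap_eq, inf_eq_right.mpr hle]
    rw [this]
    exact Submodule.FG.map _ (IsNoetherian.noetherian _)
  · rw [Submodule.ker_mkQ, inf_eq_right.mpr hI₀I]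
    exact hI₀

end Pool.Agent.Lib.MP_afeaf0_al
end

section

/-!
# Transfer of functionals on absolute integral closures
-/

namespace Pool.Agent.Lib.MP_afeaf0_al

open scoped nonZeroDivisors

section Extend

variable (A F Ω : Type*) [CommRing A] [IsDomain A] [Field F] [Algebra A F] [IsFractionRing A F]
  [Field Ω] [Algebra F Ω] [Algebra.IsAlgebraic F Ω] [Algebra A Ω] [IsScalarTower A F Ω]

include F in
/-- `Ω` is the localization of the integral closure of `A` as a module. -/
theorem isLocalizedModule_integralClosure :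
    IsLocalizedModule A⁰ (Subalgebra.toSubmodule (integralClosure A Ω)).subtype where
  map_units := by
    intro x
    have hx : (algebraMap A Ω x.1) ≠ 0 := by
      rw [IsScalarTower.algebraMap_apply A F Ω]
      intro h
      have h1 := (map_eq_zero_iff _ (FaithfulSMul.algebraMap_injective F Ω)).mp h
      have h2 := (map_eq_zero_iff _ (IsFractionRing.injective A F)).mp h1
      exact nonZeroDivisors.ne_zero x.2 h2
    rw [Module.End.isUnit_iff]
    constructor
    · intro a b hab
      simp only [Module.algebraMap_end_apply, Algebra.smul_def] at hab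
      exact mul_left_cancel₀ hx hab
    · intro b
      refine ⟨(algebraMap A Ω x.1)⁻¹ * b, ?_⟩
      simp only [Module.algebraMap_end_apply, Algebra.smul_def]
      rw [← mul_assoc, mul_inv_cancel₀ hx, one_mul]
  surj := by
    intro y
    have hy : IsAlgebraic A y :=
      (IsFractionRing.isAlgebraic_iff A F Ω).mpr (Algebra.IsAlgebraic.isAlgebraic y)
    obtain ⟨a, ha, h⟩ := hy.exists_integral_multiple
    exact ⟨(⟨a • y, h⟩, ⟨a, mem_nonZeroDivisors_of_ne_zero ha⟩), rfl⟩
  exists_of_eq := by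
    intro x₁ x₂ h
    exact ⟨1, by rw [Subtype.ext h]⟩

/-- A linear map `integralClosure A Ω → A` extends to an `F`-linear map `Ω → F`. -/
theorem exists_extension (φ : integralClosure A Ω →ₗ[A] A) :
    ∃ Φ : Ω →ₗ[F] F, ∀ x : integralClosure A Ω, Φ (x : Ω) = algebraMap A F (φ x) := by
  have := isLocalizedModule_integralClosure A F Ω
  have hunit : ∀ x : A⁰, IsUnit ((algebraMap A (Module.End A F)) x) := by
    intro x
    have hx : (algebraMap A F x.1) ≠ 0 := by
      intro h1
      have h2 := (map_eq_zero_iff _ (IsFractionRing.injective A F)).mp h1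
      exact nonZeroDivisors.ne_zero x.2 h2
    rw [Module.End.isUnit_iff]
    constructor
    · intro a b hab
      simp only [Module.algebraMap_end_apply, Algebra.smul_def] at hab
      exact mul_left_cancel₀ hx hab
    · intro b
      refine ⟨(algebraMap A F x.1)⁻¹ * b, ?_⟩
      simp only [Module.algebraMap_end_apply, Algebra.smul_def]
      rw [← mul_assoc, mul_inv_cancel₀ hx, one_mul]
  let g : (Subalgebra.toSubmodule (integralClosure A Ω)) →ₗ[A] F :=
    (Algebra.linearMap A F) ∘ₗ φ
  let Φ₀ : Ω →ₗ[A] F := IsLocalizedModule.lift A⁰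
    (Subalgebra.toSubmodule (integralClosure A Ω)).subtype g hunit
  refine ⟨LinearMap.extendScalarsOfIsLocalization A⁰ F Φ₀, ?_⟩
  intro x
  have := IsLocalizedModule.lift_apply A⁰
    (Subalgebra.toSubmodule (integralClosure A Ω)).subtype g hunit x
  exact this

end Extend

section Transfer

variable {A : Type*} (F : Type*) {B Ω : Type*} [CommRing A] [IsDomain A] [Field F] [Algebra A F]
  [IsFractionRing A F] [Field Ω] [Algebra F Ω] [Algebra.IsAlgebraic F Ω] [Algebra A Ω]
  [IsScalarTower A F Ω] [CommRing B] [Algebra A B] [Algebra B F]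
  [IsScalarTower A B F] [Algebra B Ω] [IsScalarTower B F Ω] [IsScalarTower A B Ω]
  (S : Submonoid A) [IsLocalization S B]

include F S in
/-- If `A → A⁺` admits a functional with `φ 1 = 1`, `B = S⁻¹A` and `R ⊆ B` is a subring containing
a nonzero multiple `j B` of `B`, then `R⁺` is solid over `R`. -/
theorem exists_nonzero_map (φ : integralClosure A Ω →ₗ[A] A) (hφ : φ 1 = 1)
    (hinj : Function.Injective (algebraMap B F))
    (R : Subring B) (j : B) (hj : j ≠ 0) (hjR : ∀ x : B, j * x ∈ R) :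
    ∃ Ψ : integralClosure R Ω →ₗ[R] R, Ψ ≠ 0 := by
  obtain ⟨Φ, hΦ⟩ := exists_extension A F Ω φ
  -- `Φ` maps elements integral over `R` into `B`
  have key : ∀ x : Ω, IsIntegral R x → ∃ b : B, algebraMap B F b = Φ x := by
    intro x hx
    have hx' : IsIntegral B x := hx.tower_top
    obtain ⟨s, hs⟩ := IsIntegral.exists_multiple_integral_of_isLocalization S x hx'
    have h1 : Φ ((s : A) • x) = algebraMap A F (φ ⟨(s : A) • x, hs⟩) := hΦ ⟨(s : A) • x, hs⟩
    have h2 : Φ ((s : A) • x) = algebraMap A F s * Φ x := by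
      rw [← algebraMap_smul F (s : A) x, map_smul, smul_eq_mul]
    obtain ⟨u, hu⟩ := IsLocalization.map_units B s
    refine ⟨(u⁻¹ : Bˣ) * algebraMap A B (φ ⟨(s : A) • x, hs⟩), ?_⟩
    have h3 : algebraMap B F (u : B) * algebraMap B F ((u⁻¹ : Bˣ) : B) = 1 := by
      rw [← map_mul, Units.mul_inv, map_one]
    have h4 : algebraMap B F (u : B) = algebraMap A F s := by
      rw [hu, ← IsScalarTower.algebraMap_apply A B F]
    rw [map_mul, ← IsScalarTower.algebraMap_apply A B F, ← h1, h2, ← h4, ← mul_assoc,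
      mul_comm (algebraMap B F ((u⁻¹ : Bˣ) : B)), h3, one_mul]
  -- hence `j Φ` maps them into `R`
  let jF : F := algebraMap B F j
  have key2 : ∀ x : Ω, IsIntegral R x → ∃ r : R, algebraMap R F r = jF * Φ x := by
    intro x hx
    obtain ⟨b, hb⟩ := key x hx
    refine ⟨⟨j * b, hjR b⟩, ?_⟩
    rw [← hb, ← map_mul]
    rfl
  have hRinj : Function.Injective (algebraMap R F) := fun a b h => Subtype.ext (hinj h)
  let G : integralClosure R Ω →ₗ[R] F :=
    { toFun := fun x => jF * Φ (x : Ω)
      map_add' := by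
        intro x y
        rw [← mul_add, ← map_add]
        rfl
      map_smul' := by
        intro r x
        have h1 : ((r • x : integralClosure R Ω) : Ω) = (algebraMap B F (r : B)) • (x : Ω) :=
          (algebraMap_smul F (r : B) (x : Ω)).symm
        rw [h1, map_smul, RingHom.id_apply, smul_eq_mul]
        have h2 : r • (jF * Φ (x : Ω)) = algebraMap B F (r : B) * (jF * Φ (x : Ω)) :=
          Algebra.smul_def (r : B) _
        rw [h2]
        ring }
  have hG : ∀ x, G x ∈ LinearMap.range (Algebra.linearMap R F) := by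
    intro x
    obtain ⟨r, hr⟩ := key2 x.1 x.2
    exact ⟨r, hr⟩
  let e : R ≃ₗ[R] LinearMap.range (Algebra.linearMap R F) :=
    LinearEquiv.ofInjective (Algebra.linearMap R F) hRinj
  refine ⟨e.symm.toLinearMap ∘ₗ (LinearMap.codRestrict _ G hG), ?_⟩
  intro h0
  have h1 := LinearMap.congr_fun h0 1
  have h2 : (LinearMap.codRestrict (LinearMap.range (Algebra.linearMap R F)) G hG) 1 = 0 := by
    apply e.symm.injective
    rw [map_zero]
    exact h1
  have h3 : G 1 = 0 := congrArg Subtype.val h2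
  have h4 : Φ 1 = 1 := by
    have := hΦ 1
    rw [hφ, map_one] at this
    exact this
  have h5 : G 1 = jF := by
    change jF * Φ ((1 : integralClosure R Ω) : Ω) = jF
    rw [OneMemClass.coe_one, h4, mul_one]
  rw [h5] at h3
  exact hj (hinj (by rw [map_zero]; exact h3))

end Transfer

end Pool.Agent.Lib.MP_afeaf0_al
end

section

/-!
# `T = 𝔽_p[z_0, z_1, …]` is a direct summand of its integral closure in any extension field
-/

namespace Pool.Agent.Lib.MP_afeaf0_al

open MvPolynomial Filter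

variable {p : ℕ} [hp : Fact p.Prime]

/-! ### Linear functionals on finite subalgebras -/

section Functional

variable {Ω : Type*} [Field Ω] [Algebra (T p) Ω] [FaithfulSMul (T p) Ω]

/-- A finitely generated submodule of `Ω` containing `1` carries a functional not killing `1`. -/
theorem exists_functional (N : Submodule (T p) Ω) (hN : N.FG) (h1 : (1 : Ω) ∈ N) :
    ∃ ψ : N →ₗ[T p] T p, ψ ⟨1, h1⟩ ≠ 0 := by
  classical
  let K := FractionRing (T p)
  let _ : Algebra K Ω := FractionRing.liftAlgebra (T p) Ω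
  have : IsScalarTower (T p) K Ω := FractionRing.isScalarTower_liftAlgebra (T p) Ω
  obtain ⟨lam, hlam⟩ := LinearMap.exists_leftInverse_of_injective (Algebra.linearMap K Ω)
    (LinearMap.ker_eq_bot.mpr (FaithfulSMul.algebraMap_injective K Ω))
  have hlam1 : lam 1 = 1 := by
    have := LinearMap.congr_fun hlam 1
    simpa using this
  let lamT : Ω →ₗ[T p] K := lam.restrictScalars (T p)
  obtain ⟨S, hS⟩ := hN
  obtain ⟨d, hd⟩ := IsLocalization.exist_integer_multiples_of_finset (nonZeroDivisors (T p))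
    (S.image lamT)
  -- the submodule of elements whose functional becomes integral after multiplication by `d`
  let W : Submodule (T p) Ω := (LinearMap.range (Algebra.linearMap (T p) K)).comap
    ((d : T p) • lamT)
  have hNW : N ≤ W := by
    rw [← hS, Submodule.span_le]
    intro x hx
    obtain ⟨y, hy⟩ := hd (lamT x) (Finset.mem_image_of_mem _ hx)
    exact ⟨y, hy⟩
  let f : N →ₗ[T p] LinearMap.range (Algebra.linearMap (T p) K) :=
    LinearMap.codRestrict _ (((d : T p) • lamT) ∘ₗ N.subtype) (fun x => hNW x.2)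
  let e : T p ≃ₗ[T p] LinearMap.range (Algebra.linearMap (T p) K) :=
    LinearEquiv.ofInjective (Algebra.linearMap (T p) K)
      (FaithfulSMul.algebraMap_injective (T p) K)
  refine ⟨e.symm.toLinearMap ∘ₗ f, ?_⟩
  intro h0
  have h2 : f ⟨1, h1⟩ = 0 := by
    apply e.symm.injective
    rw [map_zero]
    exact h0
  have h3 : (d : T p) • lamT 1 = 0 := congrArg Subtype.val h2
  have h4 : lamT 1 = 1 := hlam1
  rw [h4, Algebra.smul_def, mul_one] at h3
  have h5 : (d : T p) = 0 := by
    apply FaithfulSMul.algebraMap_injective (T p) K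
    rw [h3, map_zero]
  exact nonZeroDivisors.ne_zero d.2 h5

end Functional

/-! ### Twisting by Frobenius -/

section Twist

variable {B : Type*} [CommRing B] [Algebra (T p) B] [CharP B p]

/-- Given a functional `ψ : B → T`, the functional `b ↦ Phi (ψ (b ^ q))`. -/
noncomputable def twist {e q : ℕ} (hq : 0 < q) (he : q = p ^ e) {α : ℕ →₀ ℕ}
    (hα : ∀ i, α i < q) (ψ : B →ₗ[T p] T p) : B →ₗ[T p] T p where
  toFun b := Phi hq α (ψ (b ^ q))
  map_add' x y := by
    have : (x + y) ^ q = x ^ q + y ^ q := by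
      rw [he]; exact add_pow_char_pow x y p e
    rw [this, map_add, map_add]
  map_smul' t x := by
    rw [smul_pow, map_smul, smul_eq_mul, Phi_pow_mul hq he hα, RingHom.id_apply, smul_eq_mul]

theorem twist_apply {e q : ℕ} (hq : 0 < q) (he : q = p ^ e) {α : ℕ →₀ ℕ}
    (hα : ∀ i, α i < q) (ψ : B →ₗ[T p] T p) (b : B) :
    twist hq he hα ψ b = Phi hq α (ψ (b ^ q)) := rfl

/-- The direct summand theorem, given a functional not killing `1`. -/
theorem exists_splitting (ψ : B →ₗ[T p] T p) (hψ : ψ 1 ≠ 0) :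
    ∃ φ : B →ₗ[T p] T p, φ 1 = 1 := by
  obtain ⟨α, hα⟩ := MvPolynomial.exists_coeff_ne_zero hψ
  -- choose `q = p ^ e` larger than all exponents of `ψ 1`
  obtain ⟨d, hd⟩ := exists_Bd (ψ 1)
  have hlt : d < p ^ d := Nat.lt_pow_self hp.out.one_lt
  have hq : 0 < p ^ d := Nat.pos_of_ne_zero (pow_ne_zero _ hp.out.ne_zero)
  have hsmall : ∀ β ∈ (ψ 1).support, ∀ i, β i < p ^ d := by
    intro β hβ i
    exact ((le_wt β i).trans (hd β (MvPolynomial.mem_support_iff.mp hβ))).trans_lt hlt
  have hαq : ∀ i, α i < p ^ d := hsmall α (MvPolynomial.mem_support_iff.mpr hα)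
  refine ⟨(C (coeff α (ψ 1))⁻¹ : T p) • twist hq rfl hαq ψ, ?_⟩
  rw [LinearMap.smul_apply, twist_apply, one_pow, Phi_small hq α _ hsmall, smul_eq_mul, ← C_mul,
    inv_mul_cancel₀ hα, C_1]

/-- The contracting operator `κ φ (b) = Phi (φ (b ^ p))`. -/
noncomputable def kap (φ : B →ₗ[T p] T p) : B →ₗ[T p] T p :=
  twist (e := 1) (α := 0) hp.out.pos (pow_one p).symm (fun _ => hp.out.pos) φ

theorem kap_apply (φ : B →ₗ[T p] T p) (b : B) :
    kap φ b = Phi hp.out.pos 0 (φ (b ^ p)) := rfl

theorem kap_one (φ : B →ₗ[T p] T p) (h : φ 1 = 1) : kap φ 1 = 1 := by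
  rw [kap_apply, one_pow, h]
  have := Phi_small (p := p) hp.out.pos 0 1 (by
    intro β hβ i
    rw [MvPolynomial.mem_support_iff, coeff_one] at hβ
    have h0 : 0 = β := by
      by_contra hne
      exact hβ (if_neg hne)
    rw [← h0]
    exact hp.out.pos)
  rw [this]
  simp

theorem kap_iterate_one (φ : B →ₗ[T p] T p) (h : φ 1 = 1) (e : ℕ) : (kap^[e] φ) 1 = 1 := by
  induction e with
  | zero => exact h
  | succ e ih => rw [Function.iterate_succ_apply']; exact kap_one _ ih

/-- One step of contraction. -/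
theorem kap_step {m : ℕ} (v : Fin m → B) (a : Fin m → Fin m → T p)
    (hv : ∀ j, v j ^ p = ∑ k, a j k • v k) (A D : ℕ) (hA : ∀ j k, Bd A (a j k))
    (φ : B →ₗ[T p] T p) (hφ : ∀ j, Bd D (φ (v j))) (j : Fin m) :
    Bd ((A + D) / p) (kap φ (v j)) := by
  rw [kap_apply, hv, map_sum]
  apply Bd.Phi
  apply Bd.sum
  intro k _
  rw [map_smul, smul_eq_mul]
  exact (hA j k).mul (hφ k)

theorem kap_eventually {m : ℕ} (v : Fin m → B) (a : Fin m → Fin m → T p)
    (hv : ∀ j, v j ^ p = ∑ k, a j k • v k) (A : ℕ) (hA : ∀ j k, Bd A (a j k))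
    (φ : B →ₗ[T p] T p) : ∃ e₀, ∀ e, e₀ ≤ e → ∀ j, Bd A ((kap^[e] φ) (v j)) := by
  -- a starting bound
  have h0 : ∃ D, ∀ j, Bd D (φ (v j)) := by
    choose D hD using fun j => exists_Bd (φ (v j))
    exact ⟨Finset.univ.sup D, fun j => (hD j).mono (Finset.le_sup (Finset.mem_univ j))⟩
  obtain ⟨D, hD⟩ := h0
  have h2 : 2 ≤ p := hp.out.two_le
  have step : ∀ e, ∀ j, Bd (A + (D - e)) ((kap^[e] φ) (v j)) := by
    intro e
    induction e with
    | zero => intro j; exact (hD j).mono (by simp)
    | succ e ih =>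
      intro j
      rw [Function.iterate_succ_apply']
      refine (kap_step v a hv A _ hA _ ih j).mono ?_
      calc (A + (A + (D - e))) / p ≤ (A + (A + (D - e))) / 2 := Nat.div_le_div_left h2 (by norm_num)
        _ ≤ A + (D - (e + 1)) := by omega
  refine ⟨D, fun e he j => ?_⟩
  have := step e j
  rwa [Nat.sub_eq_zero_of_le he, add_zero] at this

end Twist

/-! ### Uniform bounds -/

theorem charP_subalgebra {Ω : Type*} [Field Ω] [Algebra (T p) Ω] [CharP Ω p]
    (B : Subalgebra (T p) Ω) : CharP B p :=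
  RingHom.charP B.val.toRingHom Subtype.val_injective p

attribute [local instance] charP_subalgebra

section Bounds

variable {Ω : Type*} [Field Ω] [Algebra (T p) Ω] [CharP Ω p]

/-- For an integral element `b` there is a bound `N`, valid for all subalgebras containing `b`,
for the weighted degree of `(κ^e φ) b`, `e` large. -/
theorem exists_uniform_bound (b : Ω) (hb : IsIntegral (T p) b) :
    ∃ N : ℕ, ∀ (B : Subalgebra (T p) Ω) (hbB : b ∈ B) (φ : B →ₗ[T p] T p),
      ∃ e₀, ∀ e, e₀ ≤ e → Bd N ((kap^[e] φ) ⟨b, hbB⟩) := by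
  obtain ⟨m, v, hv⟩ := Submodule.fg_iff_exists_fin_generating_family.mp hb.fg_adjoin_singleton
  have hmem : ∀ x, x ∈ Algebra.adjoin (T p) {b} → ∃ c : Fin m → T p, ∑ i, c i • v i = x := by
    intro x hx
    rw [← Submodule.mem_span_range_iff_exists_fun, hv]
    exact hx
  have hvmem : ∀ j, v j ∈ Algebra.adjoin (T p) {b} := by
    intro j
    have : v j ∈ Submodule.span (T p) (Set.range v) := Submodule.subset_span ⟨j, rfl⟩
    rw [hv] at this
    exact this
  choose a ha using fun j => hmem (v j ^ p) (pow_mem (hvmem j) p)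
  obtain ⟨t, ht⟩ := hmem b (Algebra.subset_adjoin (Set.mem_singleton b))
  have hA : ∃ A, ∀ j k, Bd A (a j k) := by
    choose D hD using fun j k => exists_Bd (a j k)
    refine ⟨Finset.univ.sup fun j => Finset.univ.sup fun k => D j k, fun j k => ?_⟩
    refine (hD j k).mono ?_
    exact (Finset.le_sup (f := fun k => D j k) (Finset.mem_univ k)).trans
      (Finset.le_sup (f := fun j => Finset.univ.sup fun k => D j k) (Finset.mem_univ j))
  have hTT : ∃ A, ∀ j, Bd A (t j) := by
    choose D hD using fun j => exists_Bd (t j)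
    exact ⟨Finset.univ.sup D, fun j => (hD j).mono (Finset.le_sup (Finset.mem_univ j))⟩
  obtain ⟨A, hA⟩ := hA
  obtain ⟨A', hA'⟩ := hTT
  refine ⟨A' + A, fun B hbB φ => ?_⟩
  have hle : Algebra.adjoin (T p) {b} ≤ B := Algebra.adjoin_le (by simpa using hbB)
  let w : Fin m → B := fun j => ⟨v j, hle (hvmem j)⟩
  have hw : ∀ j, w j ^ p = ∑ k, a j k • w k := by
    intro j
    apply Subtype.ext
    have := ha j
    simp only [w, SubmonoidClass.mk_pow, AddSubmonoidClass.coe_finsetSum, SetLike.val_smul]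
    exact this.symm
  obtain ⟨e₀, he₀⟩ := kap_eventually w a hw A hA φ
  refine ⟨e₀, fun e he => ?_⟩
  have hb' : (⟨b, hbB⟩ : B) = ∑ i, t i • w i := by
    apply Subtype.ext
    simp only [w, AddSubmonoidClass.coe_finsetSum, SetLike.val_smul]
    exact ht.symm
  rw [hb', map_sum]
  apply Bd.sum
  intro i _
  rw [map_smul, smul_eq_mul]
  exact (hA' i).mul (he₀ e he i)

end Bounds

/-! ### Compactness -/

section Compactness

variable {Ω : Type*} [Field Ω] [Algebra (T p) Ω] [FaithfulSMul (T p) Ω]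

/-- **`T → T⁺` splits.**  Here `Ω` is any extension field of `T = 𝔽_p[z_0, z_1, …]`. -/
theorem exists_splitting_integralClosure :
    ∃ φ : integralClosure (T p) Ω →ₗ[T p] T p, φ 1 = 1 := by
  classical
  have : CharP Ω p := charP_of_injective_algebraMap (FaithfulSMul.algebraMap_injective (T p) Ω) p
  let TT := integralClosure (T p) Ω
  -- uniform bounds
  choose N hN using fun b : TT => exists_uniform_bound (b : Ω) b.2
  -- a good functional for each finite set
  have key : ∀ s : Finset TT, ∃ Φ : TT → T p,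
      (∀ b ∈ s, Bd (N b) (Φ b)) ∧ Φ 1 = 1 ∧
      (∀ x y : TT, x ∈ s → y ∈ s → Φ (x + y) = Φ x + Φ y) ∧
      (∀ (t : T p) (x : TT), x ∈ s → Φ (t • x) = t * Φ x) := by
    intro s
    let B : Subalgebra (T p) Ω := Algebra.adjoin (T p) ((s.image (Subtype.val : TT → Ω) :
      Finset Ω) : Set Ω)
    have hBfg : (Subalgebra.toSubmodule B).FG :=
      fg_adjoin_of_finite (Finset.finite_toSet _) (by
        intro x hx
        rw [Finset.mem_coe, Finset.mem_image] at hx
        obtain ⟨y, _, rfl⟩ := hx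
        exact y.2)
    have hsB : ∀ x ∈ s, (x : Ω) ∈ B := fun x hx =>
      Algebra.subset_adjoin (Finset.mem_coe.mpr (Finset.mem_image_of_mem _ hx))
    obtain ⟨ψ, hψ⟩ := exists_functional (Subalgebra.toSubmodule B) hBfg B.one_mem
    obtain ⟨φ, hφ⟩ := exists_splitting (B := B) ψ hψ
    -- a common exponent
    choose E hE using fun x : {x // x ∈ s} => hN x.1 B (hsB x.1 x.2) φ
    let e := Finset.univ.sup E
    let χ := kap^[e] φ
    have hχ1 : χ 1 = 1 := kap_iterate_one φ hφ e
    refine ⟨fun b => if h : (b : Ω) ∈ B then χ ⟨b, h⟩ else 0, ?_, ?_, ?_, ?_⟩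
    · intro b hb
      have hbB := hsB b hb
      simp only [hbB, dif_pos]
      exact hE ⟨b, hb⟩ e (Finset.le_sup (Finset.mem_univ _))
    · have h1 : ((1 : TT) : Ω) ∈ B := B.one_mem
      simp only [h1, dif_pos]
      exact hχ1
    · intro x y hx hy
      have hxB := hsB x hx
      have hyB := hsB y hy
      have hxyB : ((x + y : TT) : Ω) ∈ B := B.add_mem hxB hyB
      simp only [hxB, hyB, hxyB, dif_pos]
      rw [← map_add]
      rfl
    · intro t x hx
      have hxB := hsB x hx
      have htxB : ((t • x : TT) : Ω) ∈ B := B.smul_mem hxB t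
      simp only [hxB, htxB, dif_pos]
      rw [← smul_eq_mul, ← map_smul]
      rfl
  choose Φ hΦb hΦ1 hΦadd hΦsmul using key
  -- an ultrafilter limit
  obtain ⟨U, hU⟩ := Ultrafilter.exists_le (atTop : Filter (Finset TT))
  have hev : ∀ b : TT, ∀ᶠ s in (U : Filter (Finset TT)), b ∈ s := by
    intro b
    apply hU
    filter_upwards [eventually_ge_atTop {b}] with s hs
    exact hs (Finset.mem_singleton_self b)
  have hlim : ∀ b : TT, ∃ f : T p, ∀ᶠ s in (U : Filter (Finset TT)), Φ s b = f := by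
    intro b
    have h1 : ∀ᶠ s in (U : Filter (Finset TT)), ∃ f ∈ {f : T p | Bd (N b) f}, Φ s b = f := by
      filter_upwards [hev b] with s hs
      exact ⟨Φ s b, hΦb s b hs, rfl⟩
    rw [Ultrafilter.eventually_exists_mem_iff (finite_Bd (N b))] at h1
    obtain ⟨f, _, hf⟩ := h1
    exact ⟨f, hf⟩
  choose L hL using hlim
  refine ⟨{ toFun := L, map_add' := ?_, map_smul' := ?_ }, ?_⟩
  · intro x y
    have : ∀ᶠ s in (U : Filter (Finset TT)), L (x + y) = L x + L y := by
      filter_upwards [hL x, hL y, hL (x + y), hev x, hev y] with s h1 h2 h3 h4 h5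
      rw [← h1, ← h2, ← h3]
      exact hΦadd s x y h4 h5
    exact this.exists.choose_spec
  · intro t x
    have : ∀ᶠ s in (U : Filter (Finset TT)), L (t • x) = t * L x := by
      filter_upwards [hL x, hL (t • x), hev x] with s h1 h2 h3
      rw [← h1, ← h2]
      exact hΦsmul s t x h3
    exact this.exists.choose_spec
  · have : ∀ᶠ s in (U : Filter (Finset TT)), L 1 = 1 := by
      filter_upwards [hL 1] with s h1
      rw [← h1]
      exact hΦ1 s
    exact this.exists.choose_spec

end Compactness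

end Pool.Agent.Lib.MP_afeaf0_al
end

section

/-!
# The glued ring
-/

namespace Pool.Agent.Lib.MP_afeaf0_al

open MvPolynomial

/-! ### Noetherianity of glued rings -/

section GlueNoeth

variable {B κ : Type*} [CommRing B] [IsNoetherianRing B] [Field κ]

theorem isNoetherianRing_glue (h₁ h₂ : B →+* κ)
    (hsurj : ∀ c : κ, ∃ b : B, h₁ b = c ∧ h₂ b = c) : IsNoetherianRing (glue h₁ h₂) := by
  let R := glue h₁ h₂
  let J : Ideal B := RingHom.ker h₁ ⊓ RingHom.ker h₂
  have hJ : ∀ x ∈ J, x ∈ R := by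
    rintro x ⟨hx1, hx2⟩
    rw [RingHom.mem_eqLocus]
    rw [SetLike.mem_coe, RingHom.mem_ker] at hx1 hx2
    rw [hx1, hx2]
  let _ : Module R κ := Module.compHom κ (h₁.comp R.subtype)
  have hsmul : ∀ (r : R) (c : κ), r • c = h₁ (r : B) * c := fun r c => rfl
  have hκ : IsNoetherian R κ := by
    rw [isNoetherian_def]
    intro N
    by_cases hN : N = ⊥
    · rw [hN]; exact Submodule.fg_bot
    · obtain ⟨x, hx, hx0⟩ := N.exists_mem_ne_zero_of_ne_bot hN
      refine ⟨{x}, le_antisymm (by simpa using hx) ?_⟩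
      intro y _
      obtain ⟨b, hb1, hb2⟩ := hsurj (y / x)
      rw [Finset.coe_singleton, Submodule.mem_span_singleton]
      refine ⟨⟨b, by rw [RingHom.mem_eqLocus, hb1, hb2]⟩, ?_⟩
      rw [hsmul, hb1, div_mul_cancel₀ y hx0]
  let G : B →ₗ[R] κ × κ :=
    { toFun := fun b => (h₁ b, h₂ b)
      map_add' := fun a b => by simp
      map_smul' := fun r b => by
        have h1 : r • b = (r : B) * b := rfl
        have h2 : h₁ (r : B) = h₂ (r : B) := r.2
        rw [h1, map_mul, map_mul, ← h2]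
        rfl }
  have hker : LinearMap.ker G = J.restrictScalars R := by
    ext x
    constructor
    · intro hx
      have : (h₁ x, h₂ x) = (0, 0) := hx
      rw [Prod.mk.injEq] at this
      exact ⟨this.1, this.2⟩
    · rintro ⟨hx1, hx2⟩
      have h1 : h₁ x = 0 := hx1
      have h2 : h₂ x = 0 := hx2
      rw [LinearMap.mem_ker]
      change (h₁ x, h₂ x) = 0
      rw [h1, h2]; rfl
  have hN : IsNoetherian R (B ⧸ J.restrictScalars R) := by
    rw [← hker]
    exact isNoetherian_of_injective _ (LinearMap.ker_eq_bot.mp (Submodule.ker_liftQ_eq_bot' _ G rfl))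
  exact isNoetherianRing_of_conductor R J hJ

end GlueNoeth

/-! ### The substitutions -/

section Subst

variable (p : ℕ)

/-- `z_0 ↦ 0`, `z_{j+1} ↦ z_j`. -/
noncomputable def f₁ : T p →ₐ[ZMod p] T p :=
  aeval fun i => match i with
    | 0 => 0
    | (j + 1) => X j

/-- `z_0 ↦ z_0`, `z_1, z_2 ↦ 0`, `z_{j+3} ↦ z_{j+1}`. -/
noncomputable def f₂ : T p →ₐ[ZMod p] T p :=
  aeval fun i => match i with
    | 0 => X 0
    | 1 => 0
    | 2 => 0
    | (j + 3) => X (j + 1)

/-- `z_1 ↦ 0`, the other variables fixed. -/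
noncomputable def f₃ : T p →ₐ[ZMod p] T p :=
  aeval fun i => match i with
    | 0 => X 0
    | 1 => 0
    | (j + 2) => X (j + 2)

/-- Section of `f₁`. -/
noncomputable def s₁ : T p →ₐ[ZMod p] T p := aeval fun i => X (i + 1)

/-- Section of `f₂`. -/
noncomputable def s₂ : T p →ₐ[ZMod p] T p :=
  aeval fun i => match i with
    | 0 => X 0
    | (j + 1) => X (j + 3)

theorem f₁_s₁ (t : T p) : f₁ p (s₁ p t) = t := by
  have : (f₁ p).comp (s₁ p) = AlgHom.id _ _ := by
    apply MvPolynomial.algHom_ext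
    intro i
    simp [f₁, s₁]
  exact AlgHom.congr_fun this t

theorem f₂_s₂ (t : T p) : f₂ p (s₂ p t) = t := by
  have : (f₂ p).comp (s₂ p) = AlgHom.id _ _ := by
    apply MvPolynomial.algHom_ext
    intro i
    cases i <;> simp [f₂, s₂]
  exact AlgHom.congr_fun this t

theorem f₂_f₃ (t : T p) : f₂ p (f₃ p t) = f₂ p t := by
  have : (f₂ p).comp (f₃ p) = f₂ p := by
    apply MvPolynomial.algHom_ext
    intro i
    rcases i with _ | _ | _ | i <;> simp [f₂, f₃]
  exact AlgHom.congr_fun this t

/-- The kernel of `f₁` is `(z_0)`. -/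
theorem X_dvd_of_f₁ {t : T p} (h : f₁ p t = 0) : (X 0 : T p) ∣ t := by
  have key : (Ideal.Quotient.mkₐ (ZMod p) (Ideal.span {(X 0 : T p)})).comp ((s₁ p).comp (f₁ p)) =
      Ideal.Quotient.mkₐ (ZMod p) (Ideal.span {(X 0 : T p)}) := by
    apply MvPolynomial.algHom_ext
    intro i
    cases i with
    | zero =>
      simp only [f₁, AlgHom.comp_apply, aeval_X, map_zero, Ideal.Quotient.mkₐ_eq_mk]
      symm
      rw [Ideal.Quotient.eq_zero_iff_mem]
      exact Ideal.mem_span_singleton_self _
    | succ i => simp [f₁, s₁]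
  have h1 := AlgHom.congr_fun key t
  simp only [AlgHom.comp_apply, h, map_zero, Ideal.Quotient.mkₐ_eq_mk] at h1
  rw [← Ideal.mem_span_singleton, ← Ideal.Quotient.eq_zero_iff_mem]
  exact h1.symm

end Subst

/-! ### The semilocal ring `B = S⁻¹T` -/

section Semilocal

open nonZeroDivisors

variable (p : ℕ) [hp : Fact p.Prime]

/-- The fraction field of `T`. -/
abbrev FF : Type := FractionRing (T p)

/-- The multiplicative set `S = T ∖ ((z_0) ∪ (z_1, z_2)) = {t : f₁ t ≠ 0, f₂ t ≠ 0}`. -/
noncomputable def SS : Submonoid (T p) :=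
  (T p)⁰.comap (f₁ p) ⊓ (T p)⁰.comap (f₂ p)

variable {p}

theorem mem_SS {t : T p} : t ∈ SS p ↔ f₁ p t ≠ 0 ∧ f₂ p t ≠ 0 := by
  unfold SS
  rw [Submonoid.mem_inf, Submonoid.mem_comap, Submonoid.mem_comap, mem_nonZeroDivisors_iff_ne_zero,
    mem_nonZeroDivisors_iff_ne_zero]

variable (p)

theorem SS_le : SS p ≤ (T p)⁰ := by
  intro t ht
  rw [mem_SS] at ht
  apply mem_nonZeroDivisors_of_ne_zero
  rintro rfl
  exact ht.1 (map_zero _)

/-- The localization `B = S⁻¹T`, as a subring of the fraction field. -/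
noncomputable abbrev BB : Subalgebra (T p) (FF p) :=
  Localization.subalgebra.ofField (FF p) (SS p) (SS_le p)

variable {p}

/-- The map `B → Frac T` induced by a substitution that does not kill elements of `S`. -/
noncomputable def hlift (f : T p →ₐ[ZMod p] T p) (hf : ∀ t ∈ SS p, f t ≠ 0) : BB p →+* FF p :=
  IsLocalization.lift (M := SS p) (g := (algebraMap (T p) (FF p)).comp f.toRingHom) (by
    intro y
    apply IsUnit.mk0
    intro h
    have h1 : algebraMap (T p) (FF p) (f y) = 0 := h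
    rw [map_eq_zero_iff _ (IsFractionRing.injective (T p) (FF p))] at h1
    exact hf y y.2 h1)

theorem hlift_algebraMap (f : T p →ₐ[ZMod p] T p) (hf : ∀ t ∈ SS p, f t ≠ 0) (t : T p) :
    hlift f hf (algebraMap (T p) (BB p) t) = algebraMap (T p) (FF p) (f t) :=
  IsLocalization.lift_eq _ _

theorem hlift_eq_zero_iff (f : T p →ₐ[ZMod p] T p) (hf : ∀ t ∈ SS p, f t ≠ 0) (b : BB p)
    (t : T p) (s : SS p) (h : b * algebraMap (T p) (BB p) s = algebraMap (T p) (BB p) t) :
    hlift f hf b = 0 ↔ f t = 0 := by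
  have h1 := congrArg (hlift f hf) h
  rw [map_mul, hlift_algebraMap, hlift_algebraMap] at h1
  have hs : algebraMap (T p) (FF p) (f s) ≠ 0 := by
    rw [Ne, map_eq_zero_iff _ (IsFractionRing.injective (T p) (FF p))]
    exact hf s s.2
  constructor
  · intro h2
    rw [h2, zero_mul] at h1
    exact (map_eq_zero_iff _ (IsFractionRing.injective (T p) (FF p))).mp h1.symm
  · intro h2
    rw [h2, map_zero] at h1
    exact (mul_eq_zero.mp h1).resolve_right hs

variable (p)

/-- First residue map. -/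
noncomputable def h₁ : BB p →+* FF p := hlift (f₁ p) (fun _ ht => (mem_SS.mp ht).1)

/-- Second residue map. -/
noncomputable def h₂ : BB p →+* FF p := hlift (f₂ p) (fun _ ht => (mem_SS.mp ht).2)

/-- Auxiliary map. -/
noncomputable def h₃ : BB p →+* FF p := hlift (f₃ p) (fun t ht h =>
  (mem_SS.mp ht).2 (by rw [← f₂_f₃, h, map_zero]))

variable {p}

theorem exists_num_den (b : BB p) : ∃ (t : T p) (s : SS p),
    b * algebraMap (T p) (BB p) s = algebraMap (T p) (BB p) t := by
  obtain ⟨⟨t, s⟩, h⟩ := IsLocalization.surj (SS p) b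
  exact ⟨t, s, h⟩

theorem algebraMap_BB_injective : Function.Injective (algebraMap (T p) (BB p)) :=
  IsLocalization.injective (BB p) (SS_le p)

theorem isUnit_of_ne_zero (b : BB p) (hb1 : h₁ p b ≠ 0) (hb2 : h₂ p b ≠ 0) : IsUnit b := by
  obtain ⟨t, s, h⟩ := exists_num_den b
  have ht : t ∈ SS p := by
    rw [mem_SS]
    constructor
    · intro h0
      exact hb1 ((hlift_eq_zero_iff _ _ b t s h).mpr h0)
    · intro h0
      exact hb2 ((hlift_eq_zero_iff _ _ b t s h).mpr h0)
  have hu : IsUnit (b * algebraMap (T p) (BB p) s) := by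
    rw [h]
    exact IsLocalization.map_units (BB p) ⟨t, ht⟩
  exact isUnit_of_mul_isUnit_left hu

theorem h₂_of_h₃ (b : BB p) (hb : h₃ p b = 0) : h₂ p b = 0 := by
  obtain ⟨t, s, h⟩ := exists_num_den b
  have h1 : f₃ p t = 0 := (hlift_eq_zero_iff _ _ b t s h).mp hb
  have h2 : f₂ p t = 0 := by rw [← f₂_f₃, h1, map_zero]
  exact (hlift_eq_zero_iff _ _ b t s h).mpr h2

theorem X_ne_zero' (i : ℕ) : (X i : T p) ≠ 0 := MvPolynomial.X_ne_zero i

theorem X_add_mem : (X 0 + X 1 : T p) ∈ SS p := by
  rw [mem_SS]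
  constructor
  · rw [map_add]
    simp [f₁]
  · rw [map_add]
    simp [f₂]

/-- The idempotent-like element `e = z_1/(z_0 + z_1)`. -/
theorem exists_e : ∃ e : BB p, h₁ p e = 1 ∧ h₂ p e = 0 := by
  obtain ⟨e, key⟩ : ∃ e : BB p, e * algebraMap (T p) (BB p)
      ((⟨X 0 + X 1, X_add_mem⟩ : SS p) : T p) = algebraMap (T p) (BB p) (X 1) :=
    ⟨_, IsLocalization.mk'_spec (BB p) (X 1 : T p) ⟨X 0 + X 1, X_add_mem⟩⟩
  refine ⟨e, ?_, ?_⟩
  · have h := congrArg (h₁ p) key
    rw [map_mul, h₁, hlift_algebraMap, hlift_algebraMap] at h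
    have e1 : f₁ p (X 0 + X 1) = X 0 := by simp [f₁]
    have e2 : f₁ p (X 1) = X 0 := by simp [f₁]
    rw [e1, e2] at h
    have hne : algebraMap (T p) (FF p) (X 0) ≠ 0 := by
      rw [Ne, map_eq_zero_iff _ (IsFractionRing.injective (T p) (FF p))]
      exact X_ne_zero' 0
    exact mul_right_cancel₀ hne (by rw [one_mul]; exact h)
  · rw [h₂, hlift_eq_zero_iff _ _ _ _ _ key]
    simp [f₂]

/-- Every pair of values in `T` is attained. -/
theorem exists_pair (c₁ c₂ : T p) : ∃ b : BB p, h₁ p b = algebraMap (T p) (FF p) c₁ ∧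
    h₂ p b = algebraMap (T p) (FF p) c₂ := by
  obtain ⟨e, he1, he2⟩ := exists_e (p := p)
  refine ⟨e * algebraMap (T p) (BB p) (s₁ p c₁) +
    (1 - e) * algebraMap (T p) (BB p) (s₂ p c₂), ?_, ?_⟩
  · rw [map_add, map_mul, map_mul, map_sub, map_one, he1]
    have : h₁ p (algebraMap (T p) (BB p) (s₁ p c₁)) = algebraMap (T p) (FF p) c₁ := by
      rw [h₁, hlift_algebraMap, f₁_s₁]
    rw [this]
    ring
  · rw [map_add, map_mul, map_mul, map_sub, map_one, he2]
    have : h₂ p (algebraMap (T p) (BB p) (s₂ p c₂)) = algebraMap (T p) (FF p) c₂ := by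
      rw [h₂, hlift_algebraMap, f₂_s₂]
    rw [this]
    ring

/-- Every common value in `Frac T` is attained. -/
theorem exists_common (c : FF p) : ∃ b : BB p, h₁ p b = c ∧ h₂ p b = c := by
  obtain ⟨a, d, hd, rfl⟩ := IsFractionRing.div_surjective (T p) c
  obtain ⟨x, hx1, hx2⟩ := exists_pair a a
  obtain ⟨y, hy1, hy2⟩ := exists_pair d d
  have hd0 : algebraMap (T p) (FF p) d ≠ 0 := by
    rw [Ne, map_eq_zero_iff _ (IsFractionRing.injective (T p) (FF p))]
    exact nonZeroDivisors.ne_zero hd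
  obtain ⟨u, rfl⟩ := isUnit_of_ne_zero y (by rw [hy1]; exact hd0) (by rw [hy2]; exact hd0)
  refine ⟨x * (u⁻¹ : (BB p)ˣ), ?_, ?_⟩
  · rw [map_mul, hx1, map_units_inv, hy1]
    rfl
  · rw [map_mul, hx2, map_units_inv, hy2]
    rfl

/-! ### `B` is Noetherian -/

/-- The shift by three variables. -/
noncomputable def sh3 (p : ℕ) : T p →ₐ[ZMod p] T p := rename fun i => i + 3

theorem sh3_mem {t : T p} (ht : t ≠ 0) : sh3 p t ∈ SS p := by
  rw [mem_SS]
  have e1 : f₁ p (sh3 p t) = rename (fun i => i + 2) t := by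
    have : (f₁ p).comp (sh3 p) = rename (fun i => i + 2) := by
      apply MvPolynomial.algHom_ext
      intro i
      simp [f₁, sh3]
    exact AlgHom.congr_fun this t
  have e2 : f₂ p (sh3 p t) = rename (fun i => i + 1) t := by
    have : (f₂ p).comp (sh3 p) = rename (fun i => i + 1) := by
      apply MvPolynomial.algHom_ext
      intro i
      simp [f₂, sh3]
    exact AlgHom.congr_fun this t
  have i2 : Function.Injective (fun i : ℕ => i + 2) := fun a b h => by simpa using h
  have i1 : Function.Injective (fun i : ℕ => i + 1) := fun a b h => by simpa using h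
  constructor
  · rw [e1]
    intro h
    exact ht (rename_injective _ i2 (by rw [h, map_zero]))
  · rw [e2]
    intro h
    exact ht (rename_injective _ i1 (by rw [h, map_zero]))

/-- The coefficient field `Frac 𝔽_p[z_3, z_4, …] → B`. -/
noncomputable def kmap (p : ℕ) [Fact p.Prime] : FF p →+* BB p :=
  IsLocalization.lift (M := (T p)⁰) (g := (algebraMap (T p) (BB p)).comp (sh3 p).toRingHom) (by
    intro y
    exact IsLocalization.map_units (BB p) ⟨sh3 p y, sh3_mem (nonZeroDivisors.ne_zero y.2)⟩)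

theorem kmap_algebraMap (t : T p) :
    kmap p (algebraMap (T p) (FF p) t) = algebraMap (T p) (BB p) (sh3 p t) :=
  IsLocalization.lift_eq _ _

theorem isNoetherianRing_BB : IsNoetherianRing (BB p) := by
  let g : MvPolynomial (Fin 3) (FF p) →+* BB p :=
    eval₂Hom (kmap p) (fun i => algebraMap (T p) (BB p) (X (i : ℕ)))
  have hC : ∀ a : ZMod p, algebraMap (T p) (BB p) (C a) = g (C (algebraMap (T p) (FF p) (C a))) := by
    intro a
    rw [show g (C (algebraMap (T p) (FF p) (C a))) = kmap p (algebraMap (T p) (FF p) (C a)) from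
      eval₂Hom_C _ _ _, kmap_algebraMap]
    simp [sh3]
  have hX : ∀ i : ℕ, ∃ a, g a = algebraMap (T p) (BB p) (X i) := by
    intro i
    by_cases hi : i < 3
    · exact ⟨X ⟨i, hi⟩, eval₂Hom_X' _ _ _⟩
    · refine ⟨C (algebraMap (T p) (FF p) (X (i - 3))), ?_⟩
      rw [show g (C (algebraMap (T p) (FF p) (X (i - 3)))) =
        kmap p (algebraMap (T p) (FF p) (X (i - 3))) from eval₂Hom_C _ _ _, kmap_algebraMap]
      have : i - 3 + 3 = i := by omega
      simp [sh3, this]
  have hT : ∀ t : T p, ∃ a, g a = algebraMap (T p) (BB p) t := by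
    intro t
    induction t using MvPolynomial.induction_on with
    | C a => exact ⟨_, (hC a).symm⟩
    | add t₁ t₂ h1 h2 =>
      obtain ⟨a, ha⟩ := h1
      obtain ⟨b, hb⟩ := h2
      exact ⟨a + b, by rw [map_add, map_add, ha, hb]⟩
    | mul_X t i h1 =>
      obtain ⟨a, ha⟩ := h1
      obtain ⟨b, hb⟩ := hX i
      exact ⟨a * b, by rw [map_mul, map_mul, ha, hb]⟩
  apply isNoetherianRing_of_fractions g
  intro b
  obtain ⟨t, s, h⟩ := exists_num_den b
  obtain ⟨u, hu⟩ := IsLocalization.map_units (BB p) s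
  obtain ⟨a, ha⟩ := hT t
  refine ⟨u⁻¹, a, ?_⟩
  rw [ha, ← h, ← hu, mul_comm b, ← mul_assoc, Units.inv_mul, one_mul]

/-! ### Height one -/

/-- There is no prime strictly between `0` and `ker h₁ = (z_0)`. -/
theorem between_ker (q : Ideal (BB p)) (hq : q.IsPrime) (hle : q ≤ RingHom.ker (h₁ p)) :
    q = ⊥ ∨ q = RingHom.ker (h₁ p) := by
  by_cases hX : algebraMap (T p) (BB p) (X 0) ∈ q
  · right
    apply le_antisymm hle
    intro b hb
    obtain ⟨t, s, h⟩ := exists_num_den b
    have h1 : f₁ p t = 0 := (hlift_eq_zero_iff _ _ b t s h).mp hb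
    obtain ⟨c, rfl⟩ := X_dvd_of_f₁ p h1
    obtain ⟨u, hu⟩ := IsLocalization.map_units (BB p) s
    have h2 : b * (u : BB p) ∈ q := by
      rw [hu, h, map_mul]
      exact Ideal.mul_mem_right _ _ hX
    exact (Ideal.mul_unit_mem_iff_mem q u.isUnit).mp h2
  · left
    rw [eq_bot_iff]
    intro b hb
    obtain ⟨t, s, h⟩ := exists_num_den b
    by_contra hb0
    have hb0' : b ≠ 0 := hb0
    have ht0 : t ≠ 0 := by
      rintro rfl
      rw [map_zero] at h
      have hs : algebraMap (T p) (BB p) s ≠ 0 := (IsLocalization.map_units (BB p) s).ne_zero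
      exact hb0' ((mul_eq_zero.mp h).resolve_right hs)
    have htq : algebraMap (T p) (BB p) t ∈ q := by
      rw [← h]
      exact Ideal.mul_mem_right _ _ hb
    obtain ⟨n, c, hc, rfl⟩ := WfDvdMonoid.max_power_factor' ht0
      (X_prime (i := 0) (R := ZMod p) (σ := ℕ)).not_isUnit
    rw [map_mul, map_pow] at htq
    rcases hq.mem_or_mem htq with h1 | h1
    · exact hX (hq.mem_of_pow_mem _ h1)
    · have h2 := hle h1
      rw [RingHom.mem_ker, h₁, hlift_algebraMap,
        map_eq_zero_iff _ (IsFractionRing.injective (T p) (FF p))] at h2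
      exact hc (X_dvd_of_f₁ p h2)

end Semilocal

end Pool.Agent.Lib.MP_afeaf0_al
end

section

/-!
# The absolute integral closure of the glued ring is solid
-/

namespace Pool.Agent.Lib.MP_afeaf0_al

open MvPolynomial nonZeroDivisors

/-- Solidity of `R⁺` for subrings `R` of localizations `B = S⁻¹T` of
`T = 𝔽_p[z_0, z_1, …]` containing a nonzero multiple `j B` of `B`. -/
theorem solid_of_subring_localization {p : ℕ} [hp : Fact p.Prime] {B F : Type*} [CommRing B]
    [IsDomain B] [Algebra (T p) B] (S : Submonoid (T p)) [IsLocalization S B] [Field F]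
    [Algebra (T p) F] [IsFractionRing (T p) F] [Algebra B F] [IsScalarTower (T p) B F]
    [IsFractionRing B F] (R : Subring B) (j : B) (hj : j ≠ 0) (hjR : ∀ x : B, j * x ∈ R) :
    ∃ Ψ : integralClosure R (AlgebraicClosure (FractionRing R)) →ₗ[R] R, Ψ ≠ 0 := by
  have : IsFractionRing R F := isFractionRing_subring R j hj hjR
  apply exists_nonzero_map_of_closure (F := F)
  have : FaithfulSMul (T p) (AlgebraicClosure F) := by
    rw [faithfulSMul_iff_algebraMap_injective,
      IsScalarTower.algebraMap_eq (T p) F (AlgebraicClosure F)]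
    exact (FaithfulSMul.algebraMap_injective F (AlgebraicClosure F)).comp
      (IsFractionRing.injective (T p) F)
  obtain ⟨φ, hφ⟩ := exists_splitting_integralClosure (p := p) (Ω := AlgebraicClosure F)
  have : IsScalarTower (T p) B (AlgebraicClosure F) := inferInstance
  have : IsScalarTower B F (AlgebraicClosure F) := inferInstance
  exact exists_nonzero_map F S φ hφ (IsFractionRing.injective B F) R j hj hjR

section

variable (p : ℕ) [hp : Fact p.Prime]

/-- The conductor element `z_0 z_1`. -/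
noncomputable def jj : BB p := algebraMap (T p) (BB p) (X 0 * X 1)

/-- The element `z_0 z_2`. -/
noncomputable def yy : BB p := algebraMap (T p) (BB p) (X 0 * X 2)

theorem jj_ne_zero : jj p ≠ 0 := by
  intro h
  have := algebraMap_BB_injective (p := p) (h.trans (map_zero _).symm)
  exact mul_ne_zero (X_ne_zero' 0) (X_ne_zero' 1) this

theorem h₁_jj : h₁ p (jj p) = 0 := by
  rw [jj, h₁, hlift_algebraMap]
  simp [f₁]

theorem h₂_jj : h₂ p (jj p) = 0 := by
  rw [jj, h₂, hlift_algebraMap]
  simp [f₂]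

theorem h₃_jj : h₃ p (jj p) = 0 := by
  rw [jj, h₃, hlift_algebraMap]
  simp [f₃]

theorem h₁_yy : h₁ p (yy p) = 0 := by
  rw [yy, h₁, hlift_algebraMap]
  simp [f₁]

theorem h₂_yy : h₂ p (yy p) = 0 := by
  rw [yy, h₂, hlift_algebraMap]
  simp [f₂]

theorem h₃_yy : h₃ p (yy p) ≠ 0 := by
  rw [yy, h₃, hlift_algebraMap]
  have : f₃ p (X 0 * X 2) = X 0 * X 2 := by simp [f₃]
  rw [this, Ne, map_eq_zero_iff _ (IsFractionRing.injective (T p) (FF p))]
  exact mul_ne_zero (X_ne_zero' 0) (X_ne_zero' 2)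

theorem charP_glue : CharP (glue (h₁ p) (h₂ p)) p := by
  have h1 : CharP (BB p) p := charP_of_injective_algebraMap (algebraMap_BB_injective (p := p)) p
  exact RingHom.charP (glue (h₁ p) (h₂ p)).subtype Subtype.val_injective p

theorem solid_glue :
    ∃ Ψ : integralClosure (glue (h₁ p) (h₂ p))
      (AlgebraicClosure (FractionRing (glue (h₁ p) (h₂ p)))) →ₗ[glue (h₁ p) (h₂ p)]
        (glue (h₁ p) (h₂ p)), Ψ ≠ 0 :=
  solid_of_subring_localization (F := FF p) (SS p) (glue (h₁ p) (h₂ p)) (jj p) (jj_ne_zero p)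
    (fun x => by rw [RingHom.mem_eqLocus, map_mul, map_mul, h₁_jj, h₂_jj, zero_mul, zero_mul])

theorem noetherian_glue : IsNoetherianRing (glue (h₁ p) (h₂ p)) := by
  have := isNoetherianRing_BB (p := p)
  exact isNoetherianRing_glue (h₁ p) (h₂ p) exists_common

theorem chains_glue : ∃ P₀ Q₀ M Qa Qb : PrimeSpectrum (Polynomial (glue (h₁ p) (h₂ p))),
      P₀ ⋖ Q₀ ∧ Q₀ ⋖ M ∧ P₀ < Qa ∧ Qa < Qb ∧ Qb < M := by
  obtain ⟨e, he1, he2⟩ := exists_e (p := p)
  exact exists_chains (h₃ := h₃ p) e he1 he2 exists_common between_ker (jj p) (jj_ne_zero p)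
    (h₁_jj p) (h₂_jj p) (h₃_jj p) (yy p) (h₁_yy p) (h₂_yy p) (h₃_yy p) h₂_of_h₃

end

end Pool.Agent.Lib.MP_afeaf0_al
end
end
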